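import Pool.Agent.H81.LE.Stm

/-!
# Project LE, module S_order: a degeneracy order
-/

set_option autoImplicit false

namespace Pool.Agent.H52.LE

open Finset Pool.Agent.H81.LE

open Classical in
lemma order_aux (V : Type) [Fintype V] (G : SimpleGraph V) (d : ℕ)
    (h : ∀ X : Finset V, X.Nonempty → ∃ v ∈ X, {w | w ∈ X ∧ G.Adj v w}.ncard ≤ d) :
    ∀ (n : ℕ) (X : Finset V), X.card = n → ∃ r : V → ℕ, Set.InjOn r X ∧ (∀ v ∈ X, r v < n) ∧
      ∀ v ∈ X, (X.filter (fun u => G.Adj u v ∧ r u < r v)).card ≤ d := by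
  intro n
  induction n with
  | zero =>
    intro X hX
    rw [Finset.card_eq_zero] at hX
    subst hX
    exact ⟨fun _ => 0, by simp, by simp, by simp⟩
  | succ n ih =>
    intro X hX
    have hne : X.Nonempty := by
      rw [← Finset.card_pos, hX]
      exact Nat.succ_pos n
    obtain ⟨v₀, hv₀, hd⟩ := h X hne
    obtain ⟨r, hr1, hr2, hr3⟩ := ih (X.erase v₀) (by rw [Finset.card_erase_of_mem hv₀, hX]; rfl)
    have hval : ∀ v, v ≠ v₀ → Function.update r v₀ n v = r v := fun v hv =>
      Function.update_of_ne hv _ _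
    have hval0 : Function.update r v₀ n v₀ = n := Function.update_self _ _ _
    refine ⟨Function.update r v₀ n, ?_, ?_, ?_⟩
    · intro a ha b hb hab
      by_cases h1 : a = v₀ <;> by_cases h2 : b = v₀
      · rw [h1, h2]
      · exfalso
        rw [h1, hval0, hval b h2] at hab
        have := hr2 b (Finset.mem_erase.2 ⟨h2, hb⟩)
        omega
      · exfalso
        rw [h2, hval0, hval a h1] at hab
        have := hr2 a (Finset.mem_erase.2 ⟨h1, ha⟩)
        omega
      · rw [hval a h1, hval b h2] at hab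
        exact hr1 (Finset.mem_coe.2 (Finset.mem_erase.2 ⟨h1, ha⟩))
          (Finset.mem_coe.2 (Finset.mem_erase.2 ⟨h2, hb⟩)) hab
    · intro v hv
      by_cases h1 : v = v₀
      · rw [h1, hval0]
        exact Nat.lt_succ_self n
      · rw [hval v h1]
        exact (hr2 v (Finset.mem_erase.2 ⟨h1, hv⟩)).trans (Nat.lt_succ_self n)
    · intro v hv
      by_cases h1 : v = v₀
      · subst h1
        refine le_trans ?_ hd
        rw [← Set.ncard_coe_finset]
        refine Set.ncard_le_ncard ?_ (Set.toFinite _)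
        intro u hu
        rw [Finset.coe_filter] at hu
        exact ⟨hu.1, hu.2.1.symm⟩
      · refine le_trans (Finset.card_le_card ?_) (hr3 v (Finset.mem_erase.2 ⟨h1, hv⟩))
        intro u hu
        rw [Finset.mem_filter] at hu ⊢
        obtain ⟨hu1, hu2, hu3⟩ := hu
        rw [hval v h1] at hu3
        have hu4 : u ≠ v₀ := by
          intro h2
          rw [h2, hval0] at hu3
          have := hr2 v (Finset.mem_erase.2 ⟨h1, hv⟩)
          omega
        rw [hval u hu4] at hu3
        exact ⟨Finset.mem_erase.2 ⟨hu4, hu1⟩, hu2, hu3⟩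

theorem t_order : S_order := by
  intro V _ G _ d h
  obtain ⟨r, hr1, -, hr3⟩ := order_aux V G d h _ Finset.univ rfl
  refine ⟨r, fun a b hab => hr1 (by simp) (by simp) hab, fun v => ?_⟩
  have h3 := hr3 v (Finset.mem_univ v)
  unfold pars
  refine le_trans (le_of_eq ?_) h3
  congr 1
  ext u
  simp only [Finset.mem_filter]

end Pool.Agent.H52.LE
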