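import Pool.Agent.H81.LE.Stm

/-!
# Project LE, module S_sum
-/

set_option autoImplicit false

namespace Pool.Agent.H52.LE

open Finset Pool.Agent.H81.LE

lemma pow_self_le (n : ℕ) : (n : ℝ) ^ n ≤ 3 ^ n * (n.factorial : ℝ) := by
  have h := Real.pow_div_factorial_le_exp (n : ℝ) (Nat.cast_nonneg n) n
  have hf : (0 : ℝ) < (n.factorial : ℝ) := by exact_mod_cast n.factorial_pos
  rw [div_le_iff₀ hf] at h
  refine h.trans ?_
  have h3 : Real.exp (n : ℝ) ≤ 3 ^ n := by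
    have : Real.exp (n : ℝ) = Real.exp 1 ^ n := by
      rw [← Real.exp_nat_mul, mul_one]
    rw [this]
    have := Real.exp_one_lt_d9
    gcongr
    linarith
  gcongr

lemma term_le (x b : ℕ) (hb : 1 ≤ b) (hx : 2 * b ≤ x) :
    (x.choose (b + 1) : ℝ) * (x.choose b : ℝ) * ((b : ℝ) / (49 / 50 * x)) ^ (8 * (b + 1)) ≤
      (1 / 6) ^ (b + 1) := by
  have hb0 : (0 : ℝ) < b := by exact_mod_cast hb
  have hx0 : (0 : ℝ) < x := by
    have : 0 < x := by omega
    exact_mod_cast this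
  have h2 : 2 * (b : ℝ) ≤ x := by exact_mod_cast hx
  set ρ : ℝ := b / x with hρ
  have hρ0 : 0 < ρ := div_pos hb0 hx0
  have hρ1 : ρ ≤ 1 / 2 := by
    rw [hρ, div_le_iff₀ hx0]
    linarith
  have hch : ∀ k : ℕ, b ≤ k → (x.choose k : ℝ) ≤ (3 / ρ) ^ k := by
    intro k hk
    have hf : (0 : ℝ) < (k.factorial : ℝ) := by exact_mod_cast k.factorial_pos
    have h1 : (x.choose k : ℝ) ≤ (x : ℝ) ^ k / (k.factorial : ℝ) := Nat.choose_le_pow_div k x
    refine h1.trans ?_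
    have h3 : (b : ℝ) ^ k ≤ 3 ^ k * (k.factorial : ℝ) := by
      refine le_trans ?_ (pow_self_le k)
      have : (b : ℝ) ≤ k := by exact_mod_cast hk
      gcongr
    rw [div_pow, hρ, div_pow, div_div_eq_mul_div, div_le_div_iff₀ hf (pow_pos hb0 k)]
    calc (x : ℝ) ^ k * (b : ℝ) ^ k ≤ (x : ℝ) ^ k * (3 ^ k * (k.factorial : ℝ)) := by gcongr
      _ = 3 ^ k * (x : ℝ) ^ k * (k.factorial : ℝ) := by ring
  have e1 : (b : ℝ) / (49 / 50 * x) = 50 / 49 * ρ := by
    rw [hρ]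
    field_simp
  rw [e1]
  have h3ρ : 0 < 3 / ρ := by positivity
  calc (x.choose (b + 1) : ℝ) * (x.choose b : ℝ) * (50 / 49 * ρ) ^ (8 * (b + 1))
      ≤ (3 / ρ) ^ (b + 1) * (3 / ρ) ^ b * (50 / 49 * ρ) ^ (8 * (b + 1)) := by
        have h4 := hch (b + 1) (by omega)
        have h5 := hch b le_rfl
        gcongr
    _ ≤ (3 / ρ) ^ (b + 1) * (3 / ρ) ^ (b + 1) * (50 / 49 * ρ) ^ (8 * (b + 1)) := by
        have h6 : (3 / ρ) ^ b ≤ (3 / ρ) ^ (b + 1) := by
          apply pow_le_pow_right₀ _ (Nat.le_succ b)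
          rw [le_div_iff₀ hρ0]
          linarith
        gcongr
    _ = (9 * (50 / 49) ^ 8 * ρ ^ 6) ^ (b + 1) := by
        rw [pow_mul, ← mul_pow, ← mul_pow]
        congr 1
        field_simp
        norm_num
    _ ≤ (1 / 6) ^ (b + 1) := by
        have h7 : ρ ^ 6 ≤ (1 / 2) ^ 6 := by gcongr
        have h8 : 9 * (50 / 49 : ℝ) ^ 8 * ρ ^ 6 ≤ 1 / 6 := by
          calc 9 * (50 / 49 : ℝ) ^ 8 * ρ ^ 6 ≤ 9 * (50 / 49 : ℝ) ^ 8 * (1 / 2) ^ 6 := by gcongr
            _ ≤ 1 / 6 := by norm_num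
        gcongr

lemma geo (x : ℕ) : ∑ a ∈ Finset.Icc 1 x, (if a ≤ 1 then (0 : ℝ) else (1 / 6) ^ a) ≤
    1 / 30 := by
  rcases Nat.eq_zero_or_pos x with h | h
  · subst h
    norm_num
  · have key : ∑ a ∈ Finset.Icc 1 x, (if a ≤ 1 then (0 : ℝ) else (1 / 6) ^ a) ≤
        1 / 30 - (1 / 5) * (1 / 6) ^ x := by
      induction x, h using Nat.le_induction with
      | base => norm_num
      | succ n hn ih =>
        rw [Finset.sum_Icc_succ_top (by omega), if_neg (by omega)]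
        have : (1 / 6 : ℝ) ^ (n + 1) = (1 / 6) * (1 / 6) ^ n := by ring
        rw [this]
        linarith
    have : (0 : ℝ) ≤ (1 / 5) * (1 / 6) ^ x := by positivity
    linarith

theorem t_sum : S_sum := by
  intro x
  refine le_trans ?_ ((geo x).trans (by norm_num))
  refine (Finset.sum_le_sum (g := fun a : ℕ => if a ≤ 1 then (0 : ℝ) else (1 / 6) ^ a)
    fun a ha => ?_).trans
      (Finset.sum_le_sum_of_subset_of_nonneg (Finset.filter_subset _ _) fun a _ _ => ?_)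
  · rw [mem_filter, mem_Icc] at ha
    obtain ⟨⟨h1, h2⟩, h3⟩ := ha
    rcases Nat.lt_or_ge 1 a with h4 | h4
    · obtain ⟨b, rfl⟩ : ∃ b, a = b + 1 := ⟨a - 1, by omega⟩
      have h5 : b + 1 - 1 = b := by omega
      simp only [h5] at h3 ⊢
      rw [if_neg (by omega)]
      exact term_le x b (by omega) h3
    · have h5 : a = 1 := by omega
      subst h5
      simp
  · split_ifs
    · exact le_rfl
    · positivity

end Pool.Agent.H52.LE
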